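import Mathlib
import Pool.Agent.Helper25.PFDefs
import Pool.Agent.Helper5.PH.Main

set_option autoImplicit false

namespace Pool.Agent.Results.MP_d3b2ba_co.ConstantWindow

open Pool.Agent.Helper25.PF

/-- For every real `k` with `1 < k < 2`, write `q = ⌊1 / (k - 1)⌋`. Over every alphabet with at
least `2 q + 10` letters, and over every alphabet with at least `q + 59` letters, every
`k`-power-free word is a factor of a maximal `k`-power-free word. -/
theorem result : ∀ (α : Type) [Fintype α] (k : ℝ), 1 < k → k < 2 →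
    (2 * ⌊1 / (k - 1)⌋₊ + 10 ≤ Fintype.card α ∨ ⌊1 / (k - 1)⌋₊ + 59 ≤ Fintype.card α) →
    ∀ w : List α, PowerFree k w → ∃ u : List α, MaximalPowerFree k u ∧ w <:+: u := by
  intro α _ k h1 h2 hcard w hw
  exact Pool.Agent.Helper5.PH.main3 h1 h2 hcard w hw

end Pool.Agent.Results.MP_d3b2ba_co.ConstantWindow
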