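import Mathlib
import Pool.Agent.Helper25.PFDefs
import Pool.Agent.Helper49.TF.MainThree

set_option autoImplicit false

namespace Pool.Agent.Results.MP_d3b2ba_co.FourLetters

open Pool.Agent.Helper25.PF

/-- Over every alphabet with four letters and for every real `k` with `1 ≤ k ≤ 3/2`, every
`k`-power-free word `w` is a prefix of a maximal `k`-power-free word `u`; moreover no word `u b`
with a letter `b` is `k`-power-free. -/
theorem result : ∀ (α : Type) [Fintype α] (k : ℝ), Fintype.card α = 4 → 1 ≤ k → k ≤ 3 / 2 →
    ∀ w : List α, PowerFree k w →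
      ∃ u : List α, MaximalPowerFree k u ∧ w <+: u ∧ ∀ b : α, ¬ PowerFree k (u ++ [b]) := by
  intro α _ k hc h1 h2 w hw
  exact Pool.Agent.Helper49.TF.main_four α k hc h1 h2 w hw

end Pool.Agent.Results.MP_d3b2ba_co.FourLetters
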